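import Mathlib
import Pool.Agent.MP_f96ee4_an.Final

open Filter Topology

namespace Pool.Agent.Results.MP_f96ee4_an.Horseshoe

/-- There are positive `α, δ, C` and a positive solution of the recurrence
`x_{n+1} = (α + x_n + δ x_{n-2}) / (x_n + C x_{n-1})` (indices shifted by two) which is bounded,
does not converge to the equilibrium, and is not asymptotic to any periodic sequence (hence not to
any periodic solution). -/
theorem result : ∃ α δ C : ℝ, 0 < α ∧ 0 < δ ∧ 0 < C ∧ ∃ x : ℕ → ℝ,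
    (∀ n, 0 < x n) ∧
    (∀ n, x (n + 3) = (α + x (n + 2) + δ * x n) / (x (n + 2) + C * x (n + 1))) ∧
    BddAbove (Set.range x) ∧
    ¬ Tendsto x atTop
      (𝓝 ((1 + δ + Real.sqrt ((δ + 1) ^ 2 + 4 * α * (1 + C))) / (2 * (1 + C)))) ∧
    ∀ p : ℕ → ℝ, (∃ k, 1 ≤ k ∧ ∀ n, p (n + k) = p n) →
      ¬ Tendsto (fun n => x n - p n) atTop (𝓝 0) := by
  obtain ⟨α, δ, C, hα, hδ, hC, x, h1, h2, ⟨M, hM⟩, h4⟩ := Pool.Agent.MP_f96ee4_an.main
  refine ⟨α, δ, C, hα, hδ, hC, x, h1, h2, ⟨M, ?_⟩, fun h => ?_, h4⟩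
  · rintro _ ⟨n, rfl⟩
    exact hM n
  · set c := (1 + δ + Real.sqrt ((δ + 1) ^ 2 + 4 * α * (1 + C))) / (2 * (1 + C))
    refine h4 (fun _ => c) ⟨1, le_rfl, fun n => rfl⟩ ?_
    simpa using h.sub_const c

end Pool.Agent.Results.MP_f96ee4_an.Horseshoe
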